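import Pool.Agent.H852R2.TE.Defs

/-! Task ROUND of the project TE (MP_75608d_al). -/

set_option autoImplicit false

namespace TE852
open RC14 RC852 Finset Filter Equiv
open scoped InnerProductSpace

namespace RX

lemma Rr_pos (s : ℝ) (hs : 0 ≤ s) (n : ℕ) (hn : 1 ≤ n) : 1 ≤ Rr s n := by
  unfold Rr
  apply Nat.le_floor
  have h1 : (1 : ℝ) ≤ n := by exact_mod_cast hn
  simpa using Real.one_le_rpow h1 hs

lemma Rr_add_two (s : ℝ) (hs1 : s < 1) : ∀ᶠ n : ℕ in atTop, Rr s n + 2 ≤ n := by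
  filter_upwards [ev_le s 1 2 hs1, eventually_ge_atTop 4] with n h1 h2
  have h3 : (Rr s n : ℝ) ≤ (n : ℝ) ^ s := Nat.floor_le (by positivity)
  rw [Real.rpow_one] at h1
  have h4 : (4 : ℝ) ≤ n := by exact_mod_cast h2
  have : (Rr s n : ℝ) + 2 ≤ n := by linarith
  exact_mod_cast this

/-- the combination of the two ranges of levels -/
lemma comb (n r R a q' : ℕ) (ha : 1 ≤ a) (hq' : 1 ≤ q') (c κ : ℝ) (hc : 0 < c) (hκ : 0 < κ)
    (M d : ℕ) (hMd : (M : ℝ) / (d + 1) ≤ 1 / κ)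
    (x : Fin a → Alt n) (b : Fin 1 → Alt n) (z : Fin q' → Alt n) (hx : Good1 n r c x)
    (hz : ∀ j, r ≤ j → j ≤ R → ∀ v ∈ Lvl j n,
        1 / (16 * (q' : ℝ) ^ 2) * ‖v‖ ^ 2 ≤
          16 * (1 / ((1 : ℕ) : ℝ) * En (repA j n) b v +
            3 / 2 * ((M : ℝ) / (d + 1)) / a * En (repA j n) x v) + En (repA j n) z v) :
    Good1 n R (min c (1 / (16 * (q' : ℝ) ^ 2) / (16 + 24 * (1 / κ))))
      (Fin.append x (Fin.append b z)) := by
  intro j hj1 hj2 v hv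
  rw [En_append, En_append]
  have hb := En_nonneg (repA j n) b v
  have hz0 := En_nonneg (repA j n) z v
  have hx0 := En_nonneg (repA j n) x v
  have hv0 : 0 ≤ ‖v‖ ^ 2 := by positivity
  rcases le_total j r with h | h
  · have h1 := hx j hj1 h v hv
    have h2 : min c (1 / (16 * (q' : ℝ) ^ 2) / (16 + 24 * (1 / κ))) * ‖v‖ ^ 2 ≤ c * ‖v‖ ^ 2 :=
      mul_le_mul_of_nonneg_right (min_le_left _ _) hv0
    linarith
  · have h1 := hz j h hj2 v hv
    have hk0 : 0 < 1 / κ := by positivity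
    set D : ℝ := 16 + 24 * (1 / κ) with hD
    have hD0 : 0 < D := by positivity
    have ha1 : (1 : ℝ) ≤ a := by exact_mod_cast ha
    have h2 : 3 / 2 * ((M : ℝ) / (d + 1)) / a ≤ 3 / 2 * (1 / κ) := by
      rw [div_le_iff₀ (by positivity)]
      have h3 : 3 / 2 * ((M : ℝ) / (d + 1)) ≤ 3 / 2 * (1 / κ) := by gcongr
      have h4 : 3 / 2 * (1 / κ) * 1 ≤ 3 / 2 * (1 / κ) * (a : ℝ) := by gcongr
      linarith
    have h3 : 3 / 2 * ((M : ℝ) / (d + 1)) / a * En (repA j n) x v ≤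
        3 / 2 * (1 / κ) * En (repA j n) x v := mul_le_mul_of_nonneg_right h2 hx0
    have h4 : 1 / (16 * (q' : ℝ) ^ 2) * ‖v‖ ^ 2 ≤
        D * (En (repA j n) x v + (En (repA j n) b v + En (repA j n) z v)) := by
      refine h1.trans ?_
      have e1 : (1 / ((1 : ℕ) : ℝ)) = 1 := by norm_num
      rw [e1, one_mul]
      have e2 : D * (En (repA j n) x v + (En (repA j n) b v + En (repA j n) z v)) =
          16 * (En (repA j n) b v + 3 / 2 * (1 / κ) * En (repA j n) x v) + En (repA j n) z v +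
          (16 * En (repA j n) x v + 24 * (1 / κ) * En (repA j n) b v +
            (15 + 24 * (1 / κ)) * En (repA j n) z v) := by
        rw [hD]; ring
      rw [e2]
      have e3 : 0 ≤ 16 * En (repA j n) x v + 24 * (1 / κ) * En (repA j n) b v +
            (15 + 24 * (1 / κ)) * En (repA j n) z v := by positivity
      linarith
    calc min c (1 / (16 * (q' : ℝ) ^ 2) / D) * ‖v‖ ^ 2
        ≤ (1 / (16 * (q' : ℝ) ^ 2) / D) * ‖v‖ ^ 2 :=
          mul_le_mul_of_nonneg_right (min_le_right _ _) hv0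
      _ = (1 / (16 * (q' : ℝ) ^ 2) * ‖v‖ ^ 2) / D := by ring
      _ ≤ _ := by
          rw [div_le_iff₀ hD0]
          linarith

lemma card_append {a b n : ℕ} (P : (Fin (a + b) → Alt n) → Prop) :
    (Nat.card {y : Fin (a + b) → Alt n // P y} : ℝ) =
      (Nat.card {p : (Fin a → Alt n) × (Fin b → Alt n) // P (Fin.append p.1 p.2)} : ℝ) := by
  norm_cast
  exact (card_equiv (Fin.appendEquiv a b) _ _ fun z => Iff.rfl).symm

end RX

/-- one round: from the levels `≤ n^s` to the levels `≤ n^{s+δ}` -/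
theorem ROUND_of
    (MIXE : ∀ (n r a : ℕ), r + 2 ≤ n → 1 ≤ a → ∀ c : ℝ, 0 < c → ∀ (x : Fin a → Alt n),
      Good1 n r c x → ∀ M : ℕ, 2 * a * (r * Real.log n) / c ≤ M → MixT r (gx (lz x) M))
    (BPARTE : ∀ (δ s : ℝ), 0 < δ → δ ≤ 1 / 16 → 0 ≤ s → s + 3 * δ ≤ 1 →
      ∀ᶠ n : ℕ in atTop, ∀ q : ℕ, 1 ≤ q → ∀ (K : Type) [Fintype K] [Nonempty K]
      (g : K → Perm (Fin n)), MixT (Rr s n) g →
      (Nat.card {b : Fin q → Alt n // ¬ GoodE δ s g (cb b)} : ℝ) ≤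
        1 / (n : ℝ) * (Fintype.card (Alt n) : ℝ) ^ q)
    (PARAM : ∀ (C c0 : ℝ), 0 < C → 0 < c0 → ∃ κ : ℝ, 0 < κ ∧ ∀ᶠ n : ℕ in atTop,
      ∀ r : ℕ, 1 ≤ r → ∃ M d : ℕ, d ≤ M ∧ C * (r * Real.log n) ≤ M ∧
        NF M d ≤ (n : ℝ) ^ (c0 * r) ∧ (M : ℝ) / (d + 1) ≤ 1 / κ)
    (ZE : ∀ (δ s : ℝ), 0 < δ → δ ≤ 1 / 16 → 0 ≤ s → s + 3 * δ ≤ 1 →
      ∀ q' : ℕ, 100 / δ ≤ q' →
      ∀ᶠ n : ℕ in atTop, ∀ (a q M d : ℕ) (x : Fin a → Alt n) (b : Fin q → Alt n), 1 ≤ a → 1 ≤ q →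
      d ≤ M → NF M d ≤ (n : ℝ) ^ (δ / 20000 * Rr s n) → GoodE δ s (gx (lz x) M) (cb b) →
      (Nat.card {z : Fin q' → Alt n // ¬ ∀ j, Rr s n ≤ j → j ≤ Rr (s + δ) n → ∀ v ∈ Lvl j n,
          1 / (16 * (q' : ℝ) ^ 2) * ‖v‖ ^ 2 ≤
            16 * (1 / (q : ℝ) * En (repA j n) b v +
              3 / 2 * ((M : ℝ) / (d + 1)) / a * En (repA j n) x v) + En (repA j n) z v} : ℝ) ≤
        1 / (n : ℝ) * (Fintype.card (Alt n) : ℝ) ^ q')
    (Hyp : ℝ → Prop) (hHyp : ∀ s : ℝ, Hyp s ↔ ∃ a : ℕ, 1 ≤ a ∧ ∃ c : ℝ, 0 < c ∧ ∃ B : ℝ, 0 ≤ B ∧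
      ∀ᶠ n : ℕ in atTop, (Nat.card {x : Fin a → Alt n // ¬ Good1 n (Rr s n) c x} : ℝ) ≤
        B / (n : ℝ) * (Fintype.card (Alt n) : ℝ) ^ a)
    (δ s : ℝ) (hδ : 0 < δ) (hδ1 : δ ≤ 1 / 16) (hs : 0 ≤ s) (hs1 : s + 3 * δ ≤ 1)
    (h : Hyp s) : Hyp (s + δ) := by
  rw [hHyp] at h ⊢
  obtain ⟨a, ha, c, hc, B, hB, hev⟩ := h
  set q' : ℕ := ⌈100 / δ⌉₊ with hq'
  have hq1 : 1 ≤ q' := by
    rw [hq']
    exact Nat.one_le_ceil_iff.2 (by positivity)
  have hqc : 100 / δ ≤ (q' : ℝ) := Nat.le_ceil _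
  have ha0 : (0 : ℝ) < a := by exact_mod_cast ha
  obtain ⟨κ, hκ, hpar⟩ := PARAM (2 * a / c) (δ / 20000) (by positivity) (by positivity)
  refine ⟨a + (1 + q'), by omega, min c (1 / (16 * (q' : ℝ) ^ 2) / (16 + 24 * (1 / κ))), ?_,
    B + 2, by linarith, ?_⟩
  · have : (0 : ℝ) < q' := by exact_mod_cast hq1
    apply lt_min hc
    positivity
  filter_upwards [hev, hpar, BPARTE δ s hδ hδ1 hs hs1, ZE δ s hδ hδ1 hs hs1 q' hqc,
    eventually_ge_atTop 1, RX.Rr_add_two s (by linarith)] with n h1 h2 h3 h4 hn1 h6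
  have hn : (0 : ℝ) < n := by exact_mod_cast hn1
  have hr := RX.Rr_pos s hs n hn1
  obtain ⟨M, d, hd, hM, hN, hMd⟩ := h2 (Rr s n) hr
  set A : ℝ := (Fintype.card (Alt n) : ℝ) with hA
  have hA0 : 0 < A := by rw [hA]; exact_mod_cast Fintype.card_pos
  set c' : ℝ := min c (1 / (16 * (q' : ℝ) ^ 2) / (16 + 24 * (1 / κ))) with hc'
  -- for a good `x`
  have hgood : ∀ x : Fin a → Alt n, Good1 n (Rr s n) c x →
      (Nat.card {w : Fin (1 + q') → Alt n // ¬ Good1 n (Rr (s + δ) n) c' (Fin.append x w)} : ℝ) ≤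
        2 / (n : ℝ) * Fintype.card (Fin (1 + q') → Alt n) := by
    intro x hx
    have hmix : MixT (Rr s n) (gx (lz x) M) := by
      apply MIXE n (Rr s n) a h6 ha c hc x hx M
      rw [mul_div_right_comm]
      exact hM
    rw [RX.card_append]
    haveI : Nonempty (Fin (a + a)) := ⟨⟨0, by omega⟩⟩
    have hb := h3 1 le_rfl (Fin (2 * M) → Fin (a + a) × Bool) (gx (lz x) M) hmix
    refine (card_prod_bound (fun b : Fin 1 → Alt n => GoodE δ s (gx (lz x) M) (cb b))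
      (fun b z => ¬ Good1 n (Rr (s + δ) n) c' (Fin.append x (Fin.append b z))) (1 / (n : ℝ))
      (by positivity) ?_).trans ?_
    · intro b hgb
      have hz := h4 a 1 M d x b ha le_rfl hd hN hgb
      rw [Fintype.card_fun, Fintype.card_fin]
      push_cast
      refine le_trans ?_ hz
      apply Nat.cast_le.2
      apply Nat.card_le_card_of_injective
        (fun z : {z : Fin q' → Alt n // ¬ Good1 n (Rr (s + δ) n) c'
          (Fin.append x (Fin.append b z))} =>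
          (⟨z.1, fun hcon => z.2 (RX.comb n (Rr s n) (Rr (s + δ) n) a q' ha hq1 c κ hc hκ M d hMd
            x b z.1 hx hcon)⟩ : {z : Fin q' → Alt n // ¬ ∀ j, Rr s n ≤ j →
              j ≤ Rr (s + δ) n → ∀ v ∈ Lvl j n,
              1 / (16 * (q' : ℝ) ^ 2) * ‖v‖ ^ 2 ≤
                16 * (1 / ((1 : ℕ) : ℝ) * En (repA j n) b v +
                3 / 2 * ((M : ℝ) / (d + 1)) / a * En (repA j n) x v) + En (repA j n) z v}))
      intro z w hzw
      simp only [Subtype.mk.injEq] at hzw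
      exact Subtype.ext hzw
    · rw [Fintype.card_fun, Fintype.card_fun, Fintype.card_fin, Fintype.card_fin,
        Fintype.card_fun, Fintype.card_fin]
      push_cast
      rw [← hA]
      calc _ ≤ (1 / (n : ℝ) * A ^ 1) * A ^ q' + 1 / (n : ℝ) * A ^ 1 * A ^ q' := by
            gcongr
        _ = 2 / (n : ℝ) * A ^ (1 + q') := by rw [pow_add]; ring
  rw [RX.card_append]
  refine (card_prod_bound (fun x : Fin a → Alt n => Good1 n (Rr s n) c x)
    (fun x w => ¬ Good1 n (Rr (s + δ) n) c' (Fin.append x w)) (2 / (n : ℝ))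
    (by positivity) hgood).trans ?_
  rw [Fintype.card_fun, Fintype.card_fun, Fintype.card_fin, Fintype.card_fin]
  push_cast
  rw [← hA]
  calc _ ≤ (B / (n : ℝ) * A ^ a) * A ^ (1 + q') + 2 / (n : ℝ) * A ^ a * A ^ (1 + q') := by
        gcongr
    _ = (B + 2) / (n : ℝ) * A ^ (a + (1 + q')) := by rw [pow_add A a]; ring

end TE852
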