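import Pool.Agent.H852R2.TE.Defs
import Pool.Agent.H852R2.TE.S.SFEN
import Pool.Agent.H605R2.DM.AMP1Q
import Pool.Agent.H14R2.RC.Low

/-! Task ZE of the project TE (MP_75608d_al). -/

set_option autoImplicit false

namespace TE852
open RC14 RC852 Finset Filter Equiv
open scoped InnerProductSpace

namespace ZEX

section
variable {G : Type*} [Group G] [Fintype G]
variable {V : Type*} [NormedAddCommGroup V] [InnerProductSpace ℂ V] [FiniteDimensional ℂ V]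

/-- one irreducible component -/
lemma one (ρ : G →* (V ≃ₗᵢ[ℂ] V)) (W : Submodule ℂ V) (hW : Irr ρ W) (a q M d : ℕ) (ha : 1 ≤ a)
    (hq : 1 ≤ q) (hd : d ≤ M) (x : Fin a → G) (b : Fin q → G) (L : ℕ) (η : ℝ)
    (hη : (8 / 7 : ℝ) ^ (2 * L) * rtr (SF (V := W) (res ρ W hW.2.1) x b M d ^ (2 * L)) ≤
      η * Module.finrank ℂ W) (q' : ℕ) (hq' : 1 ≤ q') :
    (Nat.card {z : Fin q' → G // ¬ ∀ v ∈ W,
        1 / (16 * (q' : ℝ) ^ 2) * ‖v‖ ^ 2 ≤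
          16 * (1 / (q : ℝ) * En ρ b v + 3 / 2 * ((M : ℝ) / (d + 1)) / a * En ρ x v) +
            En ρ z v} : ℝ) ≤
      4 * Module.finrank ℂ W * η ^ q' * (Fintype.card G : ℝ) ^ q' := by
  have hpos : (0 : ℝ) < (8 / 7 : ℝ) ^ (2 * L) := by positivity
  have hη2 : rtr (SF (V := W) (res ρ W hW.2.1) x b M d ^ (2 * L)) ≤
      (((8 / 7 : ℝ) ^ (2 * L))⁻¹ * η) * Module.finrank ℂ W := by
    rw [mul_assoc, inv_mul_eq_div, le_div_iff₀ hpos, mul_comm]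
    exact hη
  obtain ⟨h1, h2, h3⟩ := SFEN (V := W) ha hq (res ρ W hW.2.1) x b M d hd
  have h := DM852.AMP1Q.gen (V := W) (res ρ W hW.2.1) (RC14.AMP1.irr_res ρ W hW)
    (SF (V := W) (res ρ W hW.2.1) x b M d) h1
    (fun v => 16 * (1 / (q : ℝ) * En (res ρ W hW.2.1) b v +
      3 / 2 * ((M : ℝ) / (d + 1)) / a * En (res ρ W hW.2.1) x v))
    h2 (fun v => mul_le_mul_of_nonneg_left (h3 v) (by norm_num)) L _ hη2 q' hq'
  rw [← mul_assoc, mul_inv_cancel₀ hpos.ne', one_mul] at h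
  have hE : ∀ {ι : Type} [Fintype ι] (y : ι → G) (w : W),
      En (res ρ W hW.2.1) y w = En ρ y (w : V) := by
    intro ι _ y w
    unfold En
    apply Finset.sum_congr rfl
    intro i _
    rw [Submodule.coe_norm, Submodule.coe_sub, res_apply]
  have hiff : ∀ z : Fin q' → G, (¬ ∀ v ∈ W,
        1 / (16 * (q' : ℝ) ^ 2) * ‖v‖ ^ 2 ≤
          16 * (1 / (q : ℝ) * En ρ b v + 3 / 2 * ((M : ℝ) / (d + 1)) / a * En ρ x v) +
            En ρ z v) ↔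
      (¬ ∀ v : W, 1 / (16 * (q' : ℝ) ^ 2) * ‖v‖ ^ 2 ≤
        (16 * (1 / (q : ℝ) * En (res ρ W hW.2.1) b v +
      3 / 2 * ((M : ℝ) / (d + 1)) / a * En (res ρ W hW.2.1) x v)) +
          En (res ρ W hW.2.1) z v) := by
    intro z
    apply not_congr
    constructor
    · intro h1 v
      rw [hE, hE, hE, Submodule.coe_norm]
      exact h1 v v.2
    · intro h1 v hv
      have := h1 ⟨v, hv⟩
      rw [hE, hE, hE, Submodule.coe_norm] at this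
      exact this
  have hc := Nat.card_congr (Equiv.subtypeEquivRight hiff)
  rw [hc]
  exact h

/-- union bound over the components of an invariant subspace -/
lemma ubd (ρ : G →* (V ≃ₗᵢ[ℂ] V)) (M0 : Submodule ℂ V) (hM : Inv ρ M0) (a q M d : ℕ) (ha : 1 ≤ a)
    (hq : 1 ≤ q) (hd : d ≤ M) (x : Fin a → G) (b : Fin q → G) (L : ℕ) (η : ℝ) (hη0 : 0 ≤ η)
    (hη : ∀ (W : Submodule ℂ V) (hW : Irr ρ W), W ≤ M0 →
      (8 / 7 : ℝ) ^ (2 * L) * rtr (SF (V := W) (res ρ W hW.2.1) x b M d ^ (2 * L)) ≤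
        η * Module.finrank ℂ W)
    (q' : ℕ) (hq' : 1 ≤ q') (D : ℕ) (hD : Module.finrank ℂ M0 ≤ D) :
    (Nat.card {z : Fin q' → G // ¬ ∀ v ∈ M0,
        1 / (16 * (q' : ℝ) ^ 2) * ‖v‖ ^ 2 ≤
          16 * (1 / (q : ℝ) * En ρ b v + 3 / 2 * ((M : ℝ) / (d + 1)) / a * En ρ x v) +
            En ρ z v} : ℝ) ≤
      4 * (D : ℝ) ^ 2 * η ^ q' * (Fintype.card G : ℝ) ^ q' := by
  obtain ⟨N, W, hN, hW, hdec⟩ := DECOMP ρ M0 hM
  have step : Nat.card {z : Fin q' → G // ¬ ∀ v ∈ M0,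
        1 / (16 * (q' : ℝ) ^ 2) * ‖v‖ ^ 2 ≤
          16 * (1 / (q : ℝ) * En ρ b v + 3 / 2 * ((M : ℝ) / (d + 1)) / a * En ρ x v) +
            En ρ z v} ≤
      ∑ i, Nat.card {z : Fin q' → G // ¬ ∀ v ∈ W i,
        1 / (16 * (q' : ℝ) ^ 2) * ‖v‖ ^ 2 ≤
          16 * (1 / (q : ℝ) * En ρ b v + 3 / 2 * ((M : ℝ) / (d + 1)) / a * En ρ x v) +
            En ρ z v} := by
    apply RC14.card_union
    intro z hz
    by_contra hcon
    push Not at hcon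
    apply hz
    intro v hv
    have key : ∀ v : V, ∑ t, (Fin.append (Fin.append (fun _ : Fin q => 16 * (1 / (q : ℝ)))
        (fun _ : Fin a => 16 * (3 / 2 * ((M : ℝ) / (d + 1)) / a))) (fun _ : Fin q' => (1 : ℝ))) t *
          ‖ρ (Fin.append (Fin.append b x) z t) v - v‖ ^ 2 =
        16 * (1 / (q : ℝ) * En ρ b v + 3 / 2 * ((M : ℝ) / (d + 1)) / a * En ρ x v) +
            En ρ z v := by
      intro v
      rw [Fin.sum_univ_add, Fin.sum_univ_add]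
      simp only [Fin.append_left, Fin.append_right, En, Finset.mul_sum, one_mul, mul_add,
        mul_assoc]
    have := hdec (q + a + q') (Fin.append (Fin.append b x) z)
      (Fin.append (Fin.append (fun _ : Fin q => 16 * (1 / (q : ℝ)))
        (fun _ : Fin a => 16 * (3 / 2 * ((M : ℝ) / (d + 1)) / a))) (fun _ : Fin q' => (1 : ℝ)))
      (1 / (16 * (q' : ℝ) ^ 2)) ?_ ?_ v hv
    · rwa [key] at this
    · intro i
      refine Fin.addCases (fun i => ?_) (fun i => ?_) i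
      · rw [Fin.append_left]
        refine Fin.addCases (fun i => ?_) (fun i => ?_) i
        · rw [Fin.append_left]; positivity
        · rw [Fin.append_right]; positivity
      · rw [Fin.append_right]; positivity
    · intro i v hv
      rw [key]
      exact hcon i v hv
  have hb : ∀ i, (Nat.card {z : Fin q' → G // ¬ ∀ v ∈ W i,
        1 / (16 * (q' : ℝ) ^ 2) * ‖v‖ ^ 2 ≤
          16 * (1 / (q : ℝ) * En ρ b v + 3 / 2 * ((M : ℝ) / (d + 1)) / a * En ρ x v) +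
            En ρ z v} : ℝ) ≤
      4 * D * η ^ q' * (Fintype.card G : ℝ) ^ q' := by
    intro i
    refine (one ρ (W i) (hW i).1 a q M d ha hq hd x b L η (hη (W i) (hW i).1 (hW i).2) q'
      hq').trans ?_
    have : (Module.finrank ℂ (W i) : ℝ) ≤ D := by
      exact_mod_cast (Submodule.finrank_mono (hW i).2).trans hD
    gcongr
  calc (Nat.card {z : Fin q' → G // ¬ ∀ v ∈ M0,
        1 / (16 * (q' : ℝ) ^ 2) * ‖v‖ ^ 2 ≤
          16 * (1 / (q : ℝ) * En ρ b v + 3 / 2 * ((M : ℝ) / (d + 1)) / a * En ρ x v) +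
            En ρ z v} : ℝ)
      ≤ ∑ i, (Nat.card {z : Fin q' → G // ¬ ∀ v ∈ W i,
        1 / (16 * (q' : ℝ) ^ 2) * ‖v‖ ^ 2 ≤
          16 * (1 / (q : ℝ) * En ρ b v + 3 / 2 * ((M : ℝ) / (d + 1)) / a * En ρ x v) +
            En ρ z v} : ℝ) := by
        exact_mod_cast step
    _ ≤ ∑ i : Fin N, 4 * D * η ^ q' * (Fintype.card G : ℝ) ^ q' :=
        Finset.sum_le_sum fun i _ => hb i
    _ = N * (4 * D * η ^ q' * (Fintype.card G : ℝ) ^ q') := by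
        simp
    _ ≤ D * (4 * D * η ^ q' * (Fintype.card G : ℝ) ^ q') := by
        have : (N : ℝ) ≤ D := by exact_mod_cast hN.trans hD
        gcongr
    _ = _ := by ring
end

lemma Rr_le (s : ℝ) (hs : s ≤ 1) (n : ℕ) (hn : 1 ≤ n) : Rr s n ≤ n := by
  unfold Rr
  have h1 : (1 : ℝ) ≤ n := by exact_mod_cast hn
  have h2 : (n : ℝ) ^ s ≤ (n : ℝ) ^ (1 : ℝ) := Real.rpow_le_rpow_of_exponent_le h1 hs
  rw [Real.rpow_one] at h2
  exact Nat.floor_le_of_le h2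

lemma one_le_Rr (s : ℝ) (hs : 0 ≤ s) (n : ℕ) (hn : 1 ≤ n) : 1 ≤ Rr s n := by
  unfold Rr
  have h1 : (1 : ℝ) ≤ n := by exact_mod_cast hn
  exact Nat.le_floor (by simpa using Real.one_le_rpow h1 hs)

/-- the numerical estimate -/
lemma num (δ : ℝ) (hδ : 0 < δ) (q' : ℕ) (hq' : 100 / δ ≤ q') (n : ℕ) (hn : 4 ≤ n) (j : ℕ)
    (hj : 1 ≤ j) :
    4 * ((n : ℝ) ^ j) ^ 2 * (((n : ℝ) ^ (-(δ / 20))) ^ j) ^ q' ≤ 1 / (n : ℝ) ^ 2 := by
  have hn4 : (4 : ℝ) ≤ n := by exact_mod_cast hn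
  have hn0 : (0 : ℝ) < n := by linarith
  have hn1 : (1 : ℝ) ≤ n := by linarith
  have hq1 : 100 ≤ δ * q' := by
    rw [div_le_iff₀ hδ] at hq'
    linarith [mul_comm δ (q' : ℝ)]
  have e1 : 4 * ((n : ℝ) ^ j) ^ 2 * (((n : ℝ) ^ (-(δ / 20))) ^ j) ^ q' =
      4 * ((n : ℝ) ^ 2 * ((n : ℝ) ^ (-(δ / 20))) ^ q') ^ j := by
    rw [mul_pow ((n : ℝ) ^ 2), ← pow_mul, ← pow_mul, ← pow_mul, ← pow_mul, mul_comm j 2,
      mul_comm j q']
    ring
  rw [e1]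
  have e2 : ((n : ℝ) ^ (-(δ / 20))) ^ q' = (n : ℝ) ^ (-(δ * q' / 20)) := by
    rw [← Real.rpow_natCast, ← Real.rpow_mul hn0.le]
    congr 1; ring
  have e3 : (n : ℝ) ^ (-(δ * q' / 20)) ≤ (n : ℝ) ^ (-(5 : ℝ)) :=
    Real.rpow_le_rpow_of_exponent_le hn1 (by linarith)
  have e4 : (n : ℝ) ^ (-(5 : ℝ)) = 1 / (n : ℝ) ^ 5 := by
    rw [Real.rpow_neg hn0.le, show (5 : ℝ) = ((5 : ℕ) : ℝ) by norm_num, Real.rpow_natCast,
      one_div]
  have hB : (n : ℝ) ^ 2 * ((n : ℝ) ^ (-(δ / 20))) ^ q' ≤ 1 / (n : ℝ) ^ 3 := by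
    rw [e2]
    calc (n : ℝ) ^ 2 * (n : ℝ) ^ (-(δ * q' / 20)) ≤ (n : ℝ) ^ 2 * (1 / (n : ℝ) ^ 5) := by
          rw [e4] at e3
          gcongr
      _ = 1 / (n : ℝ) ^ 3 := by field_simp
  have hB0 : 0 ≤ (n : ℝ) ^ 2 * ((n : ℝ) ^ (-(δ / 20))) ^ q' := by positivity
  have hB1 : (n : ℝ) ^ 2 * ((n : ℝ) ^ (-(δ / 20))) ^ q' ≤ 1 := by
    refine hB.trans ?_
    rw [div_le_one (by positivity)]
    exact one_le_pow₀ hn1
  have hp : ((n : ℝ) ^ 2 * ((n : ℝ) ^ (-(δ / 20))) ^ q') ^ j ≤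
      (n : ℝ) ^ 2 * ((n : ℝ) ^ (-(δ / 20))) ^ q' := by
    calc _ ≤ ((n : ℝ) ^ 2 * ((n : ℝ) ^ (-(δ / 20))) ^ q') ^ 1 :=
          pow_le_pow_of_le_one hB0 hB1 hj
      _ = _ := pow_one _
  calc 4 * ((n : ℝ) ^ 2 * ((n : ℝ) ^ (-(δ / 20))) ^ q') ^ j ≤
      4 * (1 / (n : ℝ) ^ 3) := by linarith [hp.trans hB]
    _ ≤ 1 / (n : ℝ) ^ 2 := by
        rw [mul_one_div, div_le_div_iff₀ (by positivity) (by positivity)]
        calc 4 * (n : ℝ) ^ 2 ≤ (n : ℝ) * (n : ℝ) ^ 2 := by gcongr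
          _ = 1 * (n : ℝ) ^ 3 := by ring

end ZEX

open ZEX in
/-- the new letters `z` are good with probability `1 - 1/n` (from `TRE`) -/
theorem ZE_of (δ s : ℝ) (hδ : 0 < δ) (_hδ1 : δ ≤ 1 / 16) (hs : 0 ≤ s) (hs1 : s + 3 * δ ≤ 1)
    (hTRE : ∀ᶠ n : ℕ in atTop, ∀ (a q M d : ℕ) (x : Fin a → Alt n) (b : Fin q → Alt n),
      1 ≤ a → 1 ≤ q → d ≤ M → NF M d ≤ (n : ℝ) ^ (δ / 20000 * Rr s n) →
      GoodE δ s (gx (lz x) M) (cb b) →
      ∀ j, Rr s n ≤ j → j ≤ Rr (s + δ) n →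
      ∀ (W : Submodule ℂ (V j n)) (hW : Irr (repA j n) W), W ≤ Lvl j n →
        (8 / 7 : ℝ) ^ (2 * LL (Rr s n) j) *
            rtr (SF (V := W) (res (repA j n) W hW.2.1) x b M d ^ (2 * LL (Rr s n) j)) ≤
          ((n : ℝ) ^ (-(δ / 20))) ^ j * Module.finrank ℂ W)
    (q' : ℕ) (hq' : 100 / δ ≤ q') :
    ∀ᶠ n : ℕ in atTop, ∀ (a q M d : ℕ) (x : Fin a → Alt n) (b : Fin q → Alt n), 1 ≤ a → 1 ≤ q →
    d ≤ M → NF M d ≤ (n : ℝ) ^ (δ / 20000 * Rr s n) → GoodE δ s (gx (lz x) M) (cb b) →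
    (Nat.card {z : Fin q' → Alt n // ¬ ∀ j, Rr s n ≤ j → j ≤ Rr (s + δ) n → ∀ v ∈ Lvl j n,
        1 / (16 * (q' : ℝ) ^ 2) * ‖v‖ ^ 2 ≤
          16 * (1 / (q : ℝ) * En (repA j n) b v +
            3 / 2 * ((M : ℝ) / (d + 1)) / a * En (repA j n) x v) + En (repA j n) z v} : ℝ) ≤
      1 / (n : ℝ) * (Fintype.card (Alt n) : ℝ) ^ q' := by
  have hq1' : 1 ≤ q' := by
    have h1 : 0 < (q' : ℝ) := lt_of_lt_of_le (by positivity) hq'
    exact_mod_cast h1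
  filter_upwards [hTRE, eventually_ge_atTop 4] with n hRT hn4
  intro a q M d x b ha hq hd hNF hG
  have hn1 : 1 ≤ n := by omega
  have hnpos : (0 : ℝ) < n := by exact_mod_cast hn1
  have hr1 := one_le_Rr s hs n hn1
  have step : Nat.card {z : Fin q' → Alt n // ¬ ∀ j, Rr s n ≤ j → j ≤ Rr (s + δ) n →
        ∀ v ∈ Lvl j n, 1 / (16 * (q' : ℝ) ^ 2) * ‖v‖ ^ 2 ≤
          16 * (1 / (q : ℝ) * En (repA j n) b v +
            3 / 2 * ((M : ℝ) / (d + 1)) / a * En (repA j n) x v) + En (repA j n) z v} ≤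
      ∑ j ∈ Finset.Icc (Rr s n) (Rr (s + δ) n), Nat.card {z : Fin q' → Alt n // ¬ ∀ v ∈ Lvl j n,
        1 / (16 * (q' : ℝ) ^ 2) * ‖v‖ ^ 2 ≤
          16 * (1 / (q : ℝ) * En (repA j n) b v +
            3 / 2 * ((M : ℝ) / (d + 1)) / a * En (repA j n) x v) + En (repA j n) z v} := by
    apply RC14.card_union_fin
    intro z hz
    by_contra hcon
    push Not at hcon
    exact hz fun j h1 h2 => hcon j (Finset.mem_Icc.mpr ⟨h1, h2⟩)
  have hj : ∀ j ∈ Finset.Icc (Rr s n) (Rr (s + δ) n),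
      (Nat.card {z : Fin q' → Alt n // ¬ ∀ v ∈ Lvl j n,
        1 / (16 * (q' : ℝ) ^ 2) * ‖v‖ ^ 2 ≤
          16 * (1 / (q : ℝ) * En (repA j n) b v +
            3 / 2 * ((M : ℝ) / (d + 1)) / a * En (repA j n) x v) + En (repA j n) z v} : ℝ) ≤
      1 / (n : ℝ) ^ 2 * (Fintype.card (Alt n) : ℝ) ^ q' := by
    intro j hj
    rw [Finset.mem_Icc] at hj
    refine (ubd (repA j n) (Lvl j n) (Lvl_inv j n) a q M d ha hq hd x b (LL (Rr s n) j)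
      (((n : ℝ) ^ (-(δ / 20))) ^ j) (by positivity)
      (fun W hW hWL => hRT a q M d x b ha hq hd hNF hG j hj.1 hj.2 W hW hWL) q' hq1' (n ^ j)
      (finrank_le_pow _)).trans ?_
    refine mul_le_mul_of_nonneg_right ?_ (by positivity)
    have := num δ hδ q' hq' n hn4 j (hr1.trans hj.1)
    push_cast
    exact this
  have hcard : ((Finset.Icc (Rr s n) (Rr (s + δ) n)).card : ℝ) ≤ n := by
    rw [Nat.card_Icc]
    have h1 := Rr_le (s + δ) (by linarith) n hn1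
    exact_mod_cast (show Rr (s + δ) n + 1 - Rr s n ≤ n by omega)
  calc (Nat.card {z : Fin q' → Alt n // ¬ ∀ j, Rr s n ≤ j → j ≤ Rr (s + δ) n →
        ∀ v ∈ Lvl j n, 1 / (16 * (q' : ℝ) ^ 2) * ‖v‖ ^ 2 ≤
          16 * (1 / (q : ℝ) * En (repA j n) b v +
            3 / 2 * ((M : ℝ) / (d + 1)) / a * En (repA j n) x v) + En (repA j n) z v} : ℝ)
      ≤ ∑ j ∈ Finset.Icc (Rr s n) (Rr (s + δ) n),
        (Nat.card {z : Fin q' → Alt n // ¬ ∀ v ∈ Lvl j n,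
        1 / (16 * (q' : ℝ) ^ 2) * ‖v‖ ^ 2 ≤
          16 * (1 / (q : ℝ) * En (repA j n) b v +
            3 / 2 * ((M : ℝ) / (d + 1)) / a * En (repA j n) x v) + En (repA j n) z v} : ℝ) := by
        exact_mod_cast step
    _ ≤ ∑ _j ∈ Finset.Icc (Rr s n) (Rr (s + δ) n),
        1 / (n : ℝ) ^ 2 * (Fintype.card (Alt n) : ℝ) ^ q' :=
        Finset.sum_le_sum hj
    _ = ((Finset.Icc (Rr s n) (Rr (s + δ) n)).card : ℝ) *
        (1 / (n : ℝ) ^ 2 * (Fintype.card (Alt n) : ℝ) ^ q') := by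
        rw [Finset.sum_const, nsmul_eq_mul]
    _ ≤ (n : ℝ) * (1 / (n : ℝ) ^ 2 * (Fintype.card (Alt n) : ℝ) ^ q') := by
        gcongr
    _ = 1 / (n : ℝ) * (Fintype.card (Alt n) : ℝ) ^ q' := by
        field_simp

end TE852
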